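import Pool.Agent.H.MP_24ae9b_co.B

namespace Pool.Agent.Results.MP_24ae9b_co.Yes

open Finset

/-- union-closed families -/
def UnionClosed {α : Type} [DecidableEq α] (F : Finset (Finset α)) : Prop :=
  ∀ A ∈ F, ∀ B ∈ F, A ∪ B ∈ F

/-- the density of a family -/
def density {α : Type} [DecidableEq α] (F : Finset (Finset α)) : ℚ :=
  (∑ A ∈ F, (A.card : ℚ)) / (((F.biUnion id).card : ℚ) * (F.card : ℚ))

/-- all subsets of `[k]`, together with `[n]` -/
def W (n k : ℕ) : Finset (Finset ℕ) := insert (Icc 1 n) (Icc 1 k).powerset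

open Pool.Agent.H.MP24ae9b

lemma psum (s : Finset ℕ) : 2 * ∑ A ∈ s.powerset, A.card = s.card * 2 ^ s.card := by
  induction s using Finset.induction_on with
  | empty => simp
  | insert x s hx ih =>
    rw [sum_powerset_insert hx, card_insert_of_notMem hx]
    have : ∑ A ∈ s.powerset, (insert x A).card = ∑ A ∈ s.powerset, (A.card + 1) :=
      sum_congr rfl fun A hA => card_insert_of_notMem fun h => hx (mem_powerset.1 hA h)
    rw [this, sum_add_distrib, sum_const, card_powerset, smul_eq_mul, pow_succ]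
    nlinarith

lemma Wsub {n k : ℕ} (h : k < n) {A : Finset ℕ} (hA : A ∈ W n k) : A ⊆ Icc 1 n := by
  rcases mem_insert.1 hA with rfl | hA
  · exact subset_rfl
  · exact (mem_powerset.1 hA).trans (Icc_subset_Icc_right h.le)

lemma Wuc {n k : ℕ} (h : k < n) : UnionClosed (W n k) := by
  intro A hA B hB
  rcases mem_insert.1 hA with rfl | hA'
  · rw [union_eq_left.2 (Wsub h hB)]; exact hA
  rcases mem_insert.1 hB with rfl | hB'
  · rw [union_eq_right.2 (Wsub h hA)]; exact hB
  exact mem_insert_of_mem (mem_powerset.2 (union_subset (mem_powerset.1 hA') (mem_powerset.1 hB')))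

lemma Wun {n k : ℕ} (h : k < n) : ((W n k).biUnion id).card = n := by
  have : (W n k).biUnion id = Icc 1 n :=
    subset_antisymm (biUnion_subset.2 fun A hA => Wsub h hA)
      (subset_biUnion_of_mem id (mem_insert_self _ _))
  rw [this]; simp

lemma Wd {n k : ℕ} (h : k < n) :
    density (W n k) = ((k * 2 ^ k + 2 * n : ℕ) : ℚ) / (2 * n * (2 ^ k + 1)) := by
  have hn : Icc 1 n ∉ (Icc 1 k).powerset := fun e => by
    have := card_le_card (mem_powerset.1 e)
    simp at this; omega
  have h1 : (W n k).card = 2 ^ k + 1 := by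
    rw [W, card_insert_of_notMem hn]; simp
  have h2 : 2 * ∑ A ∈ W n k, A.card = k * 2 ^ k + 2 * n := by
    have := psum (Icc 1 k)
    rw [W, sum_insert hn]
    simp only [Nat.card_Icc, Nat.add_sub_cancel] at this ⊢
    omega
  have hn0 : (n : ℚ) ≠ 0 := by exact_mod_cast (by omega : n ≠ 0)
  rw [density, Wun h, h1, ← h2]
  push_cast
  field_simp

lemma top {α : Type} [DecidableEq α] (F : Finset (Finset α)) (hF : F.Nonempty)
    (hU : UnionClosed F) : F.biUnion id ∈ F := by
  have := sup'_mem (F : Set (Finset α)) (fun A hA B hB => hU A hA B hB) F hF id fun A hA => hA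
  rwa [sup'_eq_sup, sup_eq_biUnion] at this

lemma low {α : Type} [DecidableEq α] (F : Finset (Finset α)) (hF : F.Nonempty)
    (hU : UnionClosed F) (n : ℕ) (hn : 1 ≤ n) (e : (F.biUnion id).card = n) (K : ℕ) (hK : K < n)
    (h1 : 2 ^ K + K + 1 ≤ 2 * n) (h2 : 2 * n ≤ 2 ^ (K + 1) + K + 2) :
    density (W n K) ≤ density F := by
  have := main (F.biUnion id) (e ▸ hn) F (top F hF hU)
    (fun A hA => subset_biUnion_of_mem id hA) hU K (e ▸ h1) (e ▸ h2)
  rw [e] at this
  have hm : (0 : ℚ) < F.card := by exact_mod_cast hF.card_pos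
  have hn0 : (0 : ℚ) < n := by exact_mod_cast hn
  have h3 : (((K * 2 ^ K + 2 * n) * F.card : ℕ) : ℚ) ≤
      ((2 * (∑ A ∈ F, A.card) * (2 ^ K + 1) : ℕ) : ℚ) := by exact_mod_cast this
  rw [Wd hK, density, e, div_le_div_iff₀ (by positivity) (by positivity)]
  push_cast at h3 ⊢
  nlinarith [mul_le_mul_of_nonneg_left h3 hn0.le]

lemma lowmin {α : Type} [DecidableEq α] (F : Finset (Finset α)) (hF : F.Nonempty)
    (hU : UnionClosed F) (n : ℕ) (hn : 1 ≤ n) (e : (F.biUnion id).card = n) :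
    min (density (W n (Nat.log 2 n))) (density (W n (Nat.clog 2 n))) ≤ density F := by
  have k1 : 2 ^ Nat.log 2 n ≤ n := Nat.pow_log_le_self 2 (by omega)
  have k2 : n < 2 ^ (Nat.log 2 n + 1) := Nat.lt_pow_succ_log_self (by norm_num) _
  have k3 : Nat.log 2 n < 2 ^ Nat.log 2 n := Nat.lt_two_pow_self
  have k4 : 2 ^ (Nat.log 2 n + 1) = 2 * 2 ^ Nat.log 2 n := by ring
  by_cases h : 2 * n ≤ 2 ^ (Nat.log 2 n + 1) + Nat.log 2 n + 2
  · exact (min_le_left _ _).trans (low F hF hU n hn e _ (by omega) (by omega) h)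
  · have k5 : Nat.clog 2 n = Nat.log 2 n + 1 := by
      apply le_antisymm
      · exact (Nat.clog_le_iff_le_pow (by norm_num)).2 k2.le
      · exact (Nat.lt_clog_iff_pow_lt (by norm_num)).2 (by omega)
    have k6 : 2 ^ (Nat.log 2 n + 1 + 1) = 4 * 2 ^ Nat.log 2 n := by ring
    rw [k5]
    exact (min_le_right _ _).trans (low F hF hU n hn e _ (by omega) (by omega) (by omega))

theorem result (n : ℕ) (hn : 1 ≤ n) :
    IsLeast {x : ℚ | ∃ F : Finset (Finset ℕ), F.Nonempty ∧ UnionClosed F ∧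
        (F.biUnion id).card = n ∧ density F = x}
      (min (density (W n (Nat.log 2 n))) (density (W n (Nat.clog 2 n)))) ∧
    (∀ k, k = Nat.log 2 n ∨ k = Nat.clog 2 n →
      k < n ∧ UnionClosed (W n k) ∧ ((W n k).biUnion id).card = n) ∧
    ∀ (α : Type) [DecidableEq α] (F : Finset (Finset α)), F.Nonempty → UnionClosed F →
      (F.biUnion id).card = n →
      min (density (W n (Nat.log 2 n))) (density (W n (Nat.clog 2 n))) ≤ density F := by
  have l1 : Nat.log 2 n < n := Nat.log_lt_self 2 (by omega)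
  have l2 : Nat.clog 2 n < n := by
    have : n - 1 < 2 ^ (n - 1) := Nat.lt_two_pow_self
    have := (Nat.clog_le_iff_le_pow (b := 2) (x := n) (y := n - 1) (by norm_num)).2 (by omega)
    omega
  refine ⟨⟨?_, ?_⟩, ?_, fun α _ F hF hU e => lowmin F hF hU n hn e⟩
  · rcases min_choice (density (W n (Nat.log 2 n))) (density (W n (Nat.clog 2 n))) with h | h
    · exact ⟨_, insert_nonempty _ _, Wuc l1, Wun l1, h.symm⟩
    · exact ⟨_, insert_nonempty _ _, Wuc l2, Wun l2, h.symm⟩
  · rintro x ⟨F, hF, hU, e, rfl⟩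
    exact lowmin F hF hU n hn e
  · rintro k (rfl | rfl)
    · exact ⟨l1, Wuc l1, Wun l1⟩
    · exact ⟨l2, Wuc l2, Wun l2⟩

end Pool.Agent.Results.MP_24ae9b_co.Yes
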